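import Mathlib

/-!
# Distributional chaos with null orbits does not give f-distributional chaos

We answer Q1 of MP_8cea72_an in the negative.  The semigroup acts on the complex Banach space
`ℓ¹(ℕ, ℂ × ℂ)` blockwise, the `n`-th block being
`(u, v) ↦ (e^{-t/z} u + e^{-t/z} (e^{2 π i t/z} - 1)/ε v, e^{-t/z} e^{2 π i t/z} v)`
with `z = z n = 2^(10 (n+1)^2)` and `ε = ep n = 8^(-n)`.
-/

set_option autoImplicit false
open MeasureTheory Filter Topology Set
open scoped ENNReal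

namespace Pool.Agent.Results.MP_8cea72_an.NotFChaotic

/-! ### Definitions used in the statement -/

/-- The lower `f`-density `liminf_{t → ∞} m(A ∩ [0, f t]) / t` of a set `A ⊆ [0, ∞)`,
with `m` Lebesgue measure. -/
noncomputable def lowerFDensity (f : ℝ → ℝ) (A : Set ℝ) : ℝ≥0∞ :=
  liminf (fun t : ℝ => volume (A ∩ Set.Icc 0 (f t)) / ENNReal.ofReal t) atTop

/-- The class `F`: (strictly) increasing maps `f : [0, ∞) → [1, ∞)` with
`liminf_{t → ∞} f t / t > 0`. -/
structure ClassF (f : ℝ → ℝ) : Prop where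
  strictMono : StrictMonoOn f (Set.Ici 0)
  one_le : ∀ t : ℝ, 0 ≤ t → 1 ≤ f t
  liminf_pos : 0 < liminf (fun t : ℝ => ENNReal.ofReal (f t / t)) atTop

/-- `(T t)_{t ≥ 0}` is a strongly continuous semigroup of bounded linear operators
(only the values at `t ≥ 0` matter). -/
structure IsC0Semigroup {X : Type} [NormedAddCommGroup X] [NormedSpace ℂ X]
    (T : ℝ → X →L[ℂ] X) : Prop where
  map_zero : T 0 = ContinuousLinearMap.id ℂ X
  map_add : ∀ s t : ℝ, 0 ≤ s → 0 ≤ t → T (s + t) = (T s).comp (T t)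
  continuousOn : ∀ x : X, ContinuousOn (fun t : ℝ => T t x) (Set.Ici 0)

/-- `f`-distributional chaos of `(T t)_{t ≥ 0}`. -/
def FDistChaotic {X : Type} [NormedAddCommGroup X] [NormedSpace ℂ X] (f : ℝ → ℝ)
    (T : ℝ → X →L[ℂ] X) : Prop :=
  ∃ S : Set X, ¬ S.Countable ∧ ∃ σ : ℝ, 0 < σ ∧ ∀ ε : ℝ, 0 < ε →
    ∀ x ∈ S, ∀ y ∈ S, x ≠ y →
      lowerFDensity f {t : ℝ | 0 ≤ t ∧ dist (T t x) (T t y) < σ} = 0 ∧
      lowerFDensity f {t : ℝ | 0 ≤ t ∧ ε ≤ dist (T t x) (T t y)} = 0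

/-! ### Block diagonal operators -/

section diag

lemma summable_norm {E : Type} [NormedAddCommGroup E] (x : lp (fun _ : ℕ => E) 1) :
    Summable (fun n => ‖x n‖) := by
  have := (lp.memℓp x).summable (by simp)
  simpa using this

lemma norm_eq {E : Type} [NormedAddCommGroup E] (x : lp (fun _ : ℕ => E) 1) :
    ‖x‖ = ∑' n, ‖x n‖ := by
  have := lp.norm_eq_tsum_rpow (p := 1) (by simp) x
  simpa using this

variable {E : Type} [NormedAddCommGroup E] [NormedSpace ℂ E]

/-- The block diagonal operator on `ℓ¹(ℕ, E)`. -/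
noncomputable def diagOp (L : ℕ → E →L[ℂ] E) (C : ℝ) (hC : ∀ n, ‖L n‖ ≤ C) :
    lp (fun _ : ℕ => E) 1 →L[ℂ] lp (fun _ : ℕ => E) 1 :=
  LinearMap.mkContinuous
    { toFun := fun x => ⟨fun n => L n (x n), by
        apply memℓp_gen
        have h1 : Summable (fun n => C * ‖x n‖) := (summable_norm x).mul_left C
        refine Summable.of_nonneg_of_le (fun n => by positivity) (fun n => ?_) h1
        simp only [ENNReal.toReal_one, Real.rpow_one]
        exact (L n).le_of_opNorm_le (hC n) (x n)⟩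
      map_add' := fun x y => by
        ext n
        show L n ((x + y : lp (fun _ : ℕ => E) 1) n) = L n (x n) + L n (y n)
        rw [lp.coeFn_add, Pi.add_apply, map_add]
      map_smul' := fun c x => by
        ext n
        show L n ((c • x : lp (fun _ : ℕ => E) 1) n) = c • L n (x n)
        rw [lp.coeFn_smul, Pi.smul_apply, map_smul] } C (fun x => by
      rw [norm_eq, norm_eq, ← tsum_mul_left]
      have h1 : Summable (fun n => C * ‖x n‖) := (summable_norm x).mul_left C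
      refine Summable.tsum_le_tsum (fun n => (L n).le_of_opNorm_le (hC n) (x n)) ?_ h1
      exact Summable.of_nonneg_of_le (fun n => by positivity)
        (fun n => (L n).le_of_opNorm_le (hC n) (x n)) h1)

@[simp] lemma diagOp_apply (L : ℕ → E →L[ℂ] E) (C : ℝ) (hC : ∀ n, ‖L n‖ ≤ C)
    (x : lp (fun _ : ℕ => E) 1) (n : ℕ) : diagOp L C hC x n = L n (x n) := rfl

end diag

/-! ### Parameters -/

/-- the periods -/
noncomputable def z (n : ℕ) : ℝ := 2 ^ (10 * (n + 1) ^ 2)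

lemma z_pos (n : ℕ) : 0 < z n := by unfold z; positivity

lemma z_mono {m n : ℕ} (h : m ≤ n) : z m ≤ z n := by
  unfold z
  apply pow_le_pow_right₀ (by norm_num)
  have : (m + 1) ^ 2 ≤ (n + 1) ^ 2 := Nat.pow_le_pow_left (by omega) 2
  omega

lemma z_ge (n : ℕ) : 1024 ≤ z n := by
  have h := z_mono (Nat.zero_le n)
  have h0 : z 0 = 1024 := by unfold z; norm_num
  linarith

lemma z_dvd {m n : ℕ} (h : m ≤ n) : ∃ k : ℕ, z n = k * z m := by
  refine ⟨2 ^ (10 * (n + 1) ^ 2 - 10 * (m + 1) ^ 2), ?_⟩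
  have : 10 * (m + 1) ^ 2 ≤ 10 * (n + 1) ^ 2 := by
    have : (m + 1) ^ 2 ≤ (n + 1) ^ 2 := Nat.pow_le_pow_left (by omega) 2
    omega
  unfold z
  push_cast
  rw [← pow_add]
  congr 1
  omega

lemma z_succ (n : ℕ) : z (n + 1) = z n * 2 ^ (20 * n + 30) := by
  unfold z
  rw [← pow_add]
  congr 1
  ring

/-- the small parameters -/
noncomputable def ep (n : ℕ) : ℝ := (1 / 8) ^ n

lemma ep_pos (n : ℕ) : 0 < ep n := by unfold ep; positivity

lemma zep_zero : z 0 * ep 0 = 1024 := by unfold z ep; norm_num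

lemma zep_succ (n : ℕ) : z (n + 1) * ep (n + 1) = z n * 2 ^ (17 * n + 27) := by
  rw [z_succ]
  unfold ep
  have : (2 : ℝ) ^ (20 * n + 30) = 2 ^ (17 * n + 27) * 8 ^ (n + 1) := by
    have h8 : (8 : ℝ) = 2 ^ 3 := by norm_num
    rw [h8, ← pow_mul, ← pow_add]
    congr 1
    ring
  rw [this, one_div, inv_pow]
  have h8 : (8 : ℝ) ^ (n + 1) ≠ 0 := by positivity
  field_simp

/-- key lower bound for `z n * ep n` in terms of an earlier `z m`. -/
lemma zep_ge {m n : ℕ} (h : m < n) : z m * 2 ^ (17 * m + 27) ≤ z n * ep n := by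
  obtain ⟨k, rfl⟩ : ∃ k, n = k + 1 := ⟨n - 1, by omega⟩
  rw [zep_succ]
  have hmk : m ≤ k := by omega
  have h1 := z_mono hmk
  have h2 : (2 : ℝ) ^ (17 * m + 27) ≤ 2 ^ (17 * k + 27) :=
    pow_le_pow_right₀ (by norm_num) (by omega)
  exact mul_le_mul h1 h2 (by positivity) (z_pos k).le

lemma zep_ge' (n : ℕ) : 1024 ≤ z n * ep n := by
  rcases Nat.eq_zero_or_pos n with rfl | hn
  · rw [zep_zero]
  · have h := zep_ge hn
    have h0 : z 0 = 1024 := by unfold z; norm_num
    rw [h0] at h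
    refine le_trans ?_ h
    norm_num


/-! ### The blocks -/

/-- first diagonal entry -/
noncomputable def mu (n : ℕ) (t : ℝ) : ℂ := Complex.exp (-(t : ℂ) / z n)

/-- rotation factor -/
noncomputable def rot (n : ℕ) (t : ℝ) : ℂ :=
  Complex.exp (Complex.I * ((2 * Real.pi * t / z n : ℝ) : ℂ))

lemma mu_add (n : ℕ) (s t : ℝ) : mu n (s + t) = mu n s * mu n t := by
  unfold mu
  rw [← Complex.exp_add]
  congr 1
  push_cast
  ring

lemma rot_add (n : ℕ) (s t : ℝ) : rot n (s + t) = rot n s * rot n t := by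
  unfold rot
  rw [← Complex.exp_add]
  congr 1
  push_cast
  ring

lemma mu_zero (n : ℕ) : mu n 0 = 1 := by simp [mu]

lemma rot_zero (n : ℕ) : rot n 0 = 1 := by simp [rot]

lemma norm_mu (n : ℕ) (t : ℝ) : ‖mu n t‖ = Real.exp (-t / z n) := by
  unfold mu
  rw [Complex.norm_exp]
  congr 1
  have : (-(t : ℂ) / (z n : ℂ)) = ((-t / z n : ℝ) : ℂ) := by push_cast; ring
  rw [this, Complex.ofReal_re]

lemma norm_rot (n : ℕ) (t : ℝ) : ‖rot n t‖ = 1 := by
  unfold rot
  rw [mul_comm, Complex.norm_exp_ofReal_mul_I]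

lemma norm_rot_sub_one_le (n : ℕ) (t : ℝ) : ‖rot n t - 1‖ ≤ 2 * Real.pi * |t| / z n := by
  unfold rot
  refine (Real.norm_exp_I_mul_ofReal_sub_one_le).trans (le_of_eq ?_)
  rw [Real.norm_eq_abs, abs_div, abs_mul, abs_of_pos (z_pos n), abs_of_pos Real.two_pi_pos]

lemma norm_rot_sub_one_le_two (n : ℕ) (t : ℝ) : ‖rot n t - 1‖ ≤ 2 := by
  calc ‖rot n t - 1‖ ≤ ‖rot n t‖ + ‖(1 : ℂ)‖ := norm_sub_le _ _
    _ = 2 := by rw [norm_rot]; norm_num

lemma rot_period {m n : ℕ} (h : m ≤ n) (t : ℝ) : rot m (z n + t) = rot m t := by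
  obtain ⟨k, hk⟩ := z_dvd h
  rw [rot_add]
  have : rot m (z n) = 1 := by
    unfold rot
    have hz : (z m) ≠ 0 := (z_pos m).ne'
    have h2 : 2 * Real.pi * z n / z m = 2 * Real.pi * k := by
      rw [hk]; field_simp
    rw [h2, Complex.exp_eq_one_iff]
    refine ⟨k, ?_⟩
    push_cast
    ring
  rw [this, one_mul]

/-- The `n`-th block. -/
noncomputable def blk (n : ℕ) (t : ℝ) : (ℂ × ℂ) →L[ℂ] (ℂ × ℂ) :=
  (mu n t • ContinuousLinearMap.fst ℂ ℂ ℂ +
    (mu n t * (rot n t - 1) / ep n) • ContinuousLinearMap.snd ℂ ℂ ℂ).prod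
    ((mu n t * rot n t) • ContinuousLinearMap.snd ℂ ℂ ℂ)

lemma blk_apply (n : ℕ) (t : ℝ) (v : ℂ × ℂ) :
    blk n t v = (mu n t * v.1 + (mu n t * (rot n t - 1) / ep n) * v.2, mu n t * rot n t * v.2) := by
  simp [blk]

lemma blk_zero (n : ℕ) (v : ℂ × ℂ) : blk n 0 v = v := by
  rw [blk_apply, mu_zero, rot_zero]
  simp

lemma blk_add (n : ℕ) (s t : ℝ) (v : ℂ × ℂ) : blk n (s + t) v = blk n s (blk n t v) := by
  have hep : (ep n : ℂ) ≠ 0 := by exact_mod_cast (ep_pos n).ne'
  rw [blk_apply, blk_apply, blk_apply, mu_add, rot_add]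
  ext
  · simp only
    field_simp
    ring
  · simp only
    ring

lemma blk_norm_apply_le (n : ℕ) (t : ℝ) (v : ℂ × ℂ) :
    ‖blk n t v‖ ≤ Real.exp (-t / z n) * (1 + ‖rot n t - 1‖ / ep n) * ‖v‖ := by
  have h1 : ‖v.1‖ ≤ ‖v‖ := norm_fst_le v
  have h2 : ‖v.2‖ ≤ ‖v‖ := norm_snd_le v
  have hep := ep_pos n
  have hr : 0 ≤ ‖rot n t - 1‖ / ep n := by positivity
  have hexp : 0 < Real.exp (-t / z n) := Real.exp_pos _
  rw [blk_apply, Prod.norm_def]
  refine max_le ?_ ?_
  · calc ‖mu n t * v.1 + mu n t * (rot n t - 1) / ep n * v.2‖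
        ≤ ‖mu n t * v.1‖ + ‖mu n t * (rot n t - 1) / ep n * v.2‖ := norm_add_le _ _
      _ = Real.exp (-t / z n) * ‖v.1‖
            + Real.exp (-t / z n) * ‖rot n t - 1‖ / ep n * ‖v.2‖ := by
          rw [norm_mul, norm_mul, norm_div, norm_mul, norm_mu, Complex.norm_real,
            Real.norm_of_nonneg hep.le]
      _ ≤ Real.exp (-t / z n) * ‖v‖
            + Real.exp (-t / z n) * ‖rot n t - 1‖ / ep n * ‖v‖ := by gcongr
      _ = _ := by ring
  · calc ‖mu n t * rot n t * v.2‖ = Real.exp (-t / z n) * 1 * ‖v.2‖ := by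
          rw [norm_mul, norm_mul, norm_mu, norm_rot]
      _ ≤ Real.exp (-t / z n) * (1 + ‖rot n t - 1‖ / ep n) * ‖v‖ := by
          gcongr
          linarith

lemma rot_div_le (n : ℕ) (t : ℝ) : ‖rot n t - 1‖ / ep n ≤ |t| := by
  have h := norm_rot_sub_one_le n t
  have hz := z_pos n
  have hep := ep_pos n
  have h2 := zep_ge' n
  rw [div_le_iff₀ hep]
  refine h.trans ?_
  rw [div_le_iff₀ hz]
  have hpi : 2 * Real.pi ≤ 1024 := by linarith [Real.pi_le_four]
  have h3 : 2 * Real.pi * |t| ≤ (z n * ep n) * |t| :=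
    mul_le_mul_of_nonneg_right (hpi.trans h2) (abs_nonneg t)
  linarith [h3]

lemma blk_norm_le (n : ℕ) (t : ℝ) : ‖blk n t‖ ≤ Real.exp |t| * (1 + |t|) := by
  refine ContinuousLinearMap.opNorm_le_bound _ (by positivity) (fun v => ?_)
  refine (blk_norm_apply_le n t v).trans ?_
  have h1 := rot_div_le n t
  have h2 : Real.exp (-t / z n) ≤ Real.exp |t| := by
    apply Real.exp_le_exp.2
    have hz := z_ge n
    have hz0 := z_pos n
    rw [div_le_iff₀ hz0]
    have := neg_abs_le t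
    nlinarith [abs_nonneg t]
  have h3 : 0 ≤ ‖rot n t - 1‖ / ep n := div_nonneg (norm_nonneg _) (ep_pos n).le
  gcongr

lemma blk_norm_le_of_nonneg (n : ℕ) {t : ℝ} (ht : 0 ≤ t) (v : ℂ × ℂ) :
    ‖blk n t v‖ ≤ (1 + ‖rot n t - 1‖ / ep n) * ‖v‖ := by
  refine (blk_norm_apply_le n t v).trans ?_
  have h1 : Real.exp (-t / z n) ≤ 1 := by
    apply Real.exp_le_one_iff.2
    exact div_nonpos_of_nonpos_of_nonneg (by linarith) (z_pos n).le
  have h3 : 0 ≤ ‖rot n t - 1‖ / ep n := div_nonneg (norm_nonneg _) (ep_pos n).le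
  have h4 : Real.exp (-t / z n) * (1 + ‖rot n t - 1‖ / ep n) ≤ 1 + ‖rot n t - 1‖ / ep n := by
    nlinarith [Real.exp_pos (-t / z n)]
  exact mul_le_mul_of_nonneg_right h4 (norm_nonneg v)

/-- The blocks are uniformly bounded at the times in `[z j, z j + 1]`. -/
lemma blk_bound_Z (n j : ℕ) {t : ℝ} (h1 : z j ≤ t) (h2 : t ≤ z j + 1) (v : ℂ × ℂ) :
    ‖blk n t v‖ ≤ 2 * ‖v‖ := by
  have ht : 0 ≤ t := (z_pos j).le.trans h1
  refine (blk_norm_le_of_nonneg n ht v).trans ?_
  have key : ‖rot n t - 1‖ / ep n ≤ 1 := by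
    rcases le_or_gt n j with hnj | hnj
    · have : rot n t = rot n (t - z j) := by
        rw [← rot_period hnj (t - z j)]
        congr 1
        ring
      rw [this]
      refine (rot_div_le n (t - z j)).trans ?_
      rw [abs_of_nonneg (by linarith)]
      linarith
    · have h3 := zep_ge hnj
      have h4 := norm_rot_sub_one_le n t
      have hz := z_pos n
      have hzj := z_ge j
      have hep := ep_pos n
      rw [div_le_iff₀ hep, one_mul]
      refine h4.trans ?_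
      rw [div_le_iff₀ hz, abs_of_nonneg ht]
      have h5 : (2 : ℝ) ^ 27 ≤ 2 ^ (17 * j + 27) := pow_le_pow_right₀ (by norm_num) (by omega)
      have h6 : z j * 2 ^ 27 ≤ z n * ep n := by
        refine le_trans ?_ h3
        exact mul_le_mul_of_nonneg_left h5 (z_pos j).le
      have hpi := Real.pi_le_four
      have hpi0 := Real.pi_pos
      nlinarith
  have := mul_le_mul_of_nonneg_right (add_le_add_right key 1) (norm_nonneg v)
  linarith

/-! ### The semigroup -/

/-- The Banach space. -/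
abbrev Sp : Type := lp (fun _ : ℕ => ℂ × ℂ) 1

/-- The semigroup. -/
noncomputable def sg (t : ℝ) : Sp →L[ℂ] Sp :=
  diagOp (fun n => blk n t) (Real.exp |t| * (1 + |t|)) (fun n => blk_norm_le n t)

@[simp] lemma sg_apply (t : ℝ) (x : Sp) (n : ℕ) : sg t x n = blk n t (x n) := rfl

lemma sg_zero : sg 0 = ContinuousLinearMap.id ℂ Sp := by
  ext x : 1
  apply lp.ext
  funext n
  rw [sg_apply, blk_zero]
  rfl

lemma sg_add (s t : ℝ) : sg (s + t) = (sg s).comp (sg t) := by
  ext x : 1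
  apply lp.ext
  funext n
  rw [sg_apply, blk_add]
  rfl

/-- a general norm bound from a block bound -/
lemma norm_sg_le {t C : ℝ} (hC : ∀ n (v : ℂ × ℂ), ‖blk n t v‖ ≤ C * ‖v‖) (x : Sp) :
    ‖sg t x‖ ≤ C * ‖x‖ := by
  rw [norm_eq, norm_eq, ← tsum_mul_left]
  exact Summable.tsum_le_tsum (fun n => hC n (x n)) (summable_norm _)
    ((summable_norm x).mul_left C)

lemma norm_sg_Z (j : ℕ) {t : ℝ} (h1 : z j ≤ t) (h2 : t ≤ z j + 1) (x : Sp) :
    ‖sg t x‖ ≤ 2 * ‖x‖ :=
  norm_sg_le (fun n v => blk_bound_Z n j h1 h2 v) x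


lemma mu_sub_one (n : ℕ) {h : ℝ} (hh : |h| ≤ 1) : ‖mu n h - 1‖ ≤ |h| := by
  have hz := z_ge n
  have hz0 := z_pos n
  have h1 : ‖(-(h : ℂ) / z n)‖ = |h| / z n := by
    rw [norm_div, norm_neg, Complex.norm_real, Complex.norm_real, Real.norm_eq_abs,
      Real.norm_of_nonneg hz0.le]
  have h2 : |h| / z n ≤ |h| / 2 := by
    apply div_le_div_of_nonneg_left (abs_nonneg h) (by norm_num) (by linarith)
  have h3 : ‖(-(h : ℂ) / z n)‖ ≤ 1 := by rw [h1]; linarith
  have h4 := Complex.norm_exp_sub_one_le h3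
  unfold mu
  rw [h1] at h4
  linarith

lemma norm_mu_le (n : ℕ) {h : ℝ} (hh : |h| ≤ 1) : ‖mu n h‖ ≤ 2 := by
  have h1 := mu_sub_one n hh
  calc ‖mu n h‖ = ‖(mu n h - 1) + 1‖ := by ring_nf
    _ ≤ ‖mu n h - 1‖ + ‖(1 : ℂ)‖ := norm_add_le _ _
    _ ≤ 2 := by rw [norm_one]; linarith

lemma rot_sub_one_le_abs (n : ℕ) (h : ℝ) : ‖rot n h - 1‖ ≤ |h| := by
  refine (norm_rot_sub_one_le n h).trans ?_
  have hz := z_ge n
  have hz0 := z_pos n
  rw [div_le_iff₀ hz0]
  have hpi := Real.pi_le_four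
  have hpi0 := Real.pi_pos
  nlinarith [abs_nonneg h]

lemma blk_sub_norm_le (n : ℕ) {h : ℝ} (hh : |h| ≤ 1) (v : ℂ × ℂ) :
    ‖blk n h v - v‖ ≤ 3 * |h| * ‖v‖ := by
  have h1 : ‖v.1‖ ≤ ‖v‖ := norm_fst_le v
  have h2 : ‖v.2‖ ≤ ‖v‖ := norm_snd_le v
  have hep := ep_pos n
  have hm1 := mu_sub_one n hh
  have hm2 := norm_mu_le n hh
  have hr1 := rot_sub_one_le_abs n h
  have hr2 := rot_div_le n h
  have ha := abs_nonneg h
  have hv := norm_nonneg v
  have e : blk n h v - v = ((mu n h - 1) * v.1 + (mu n h * ((rot n h - 1) / ep n)) * v.2,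
      (mu n h * (rot n h - 1) + (mu n h - 1)) * v.2) := by
    rw [blk_apply]
    ext
    · simp only [Prod.fst_sub]
      ring
    · simp only [Prod.snd_sub]
      ring
  rw [e, Prod.norm_def]
  have hdiv : ‖(rot n h - 1) / (ep n : ℂ)‖ = ‖rot n h - 1‖ / ep n := by
    rw [norm_div, Complex.norm_real, Real.norm_of_nonneg hep.le]
  refine max_le ?_ ?_
  · calc ‖(mu n h - 1) * v.1 + (mu n h * ((rot n h - 1) / ep n)) * v.2‖
        ≤ ‖(mu n h - 1) * v.1‖ + ‖(mu n h * ((rot n h - 1) / ep n)) * v.2‖ := norm_add_le _ _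
      _ = ‖mu n h - 1‖ * ‖v.1‖ + ‖mu n h‖ * (‖rot n h - 1‖ / ep n) * ‖v.2‖ := by
          rw [norm_mul, norm_mul, norm_mul, hdiv]
      _ ≤ |h| * ‖v‖ + 2 * |h| * ‖v‖ := by gcongr
      _ = 3 * |h| * ‖v‖ := by ring
  · calc ‖(mu n h * (rot n h - 1) + (mu n h - 1)) * v.2‖
        = ‖mu n h * (rot n h - 1) + (mu n h - 1)‖ * ‖v.2‖ := norm_mul _ _
      _ ≤ (‖mu n h‖ * ‖rot n h - 1‖ + ‖mu n h - 1‖) * ‖v.2‖ := by
          gcongr
          refine (norm_add_le _ _).trans ?_
          rw [norm_mul]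
      _ ≤ (2 * |h| + |h|) * ‖v‖ := by gcongr
      _ = 3 * |h| * ‖v‖ := by ring

lemma sg_sub_norm_le {h : ℝ} (hh : |h| ≤ 1) (x : Sp) : ‖sg h x - x‖ ≤ 3 * |h| * ‖x‖ := by
  rw [norm_eq, norm_eq, ← tsum_mul_left]
  exact Summable.tsum_le_tsum (fun n => blk_sub_norm_le n hh (x n)) (summable_norm _)
    ((summable_norm x).mul_left _)

lemma sg_continuous (x : Sp) : Continuous (fun t : ℝ => sg t x) := by
  rw [continuous_iff_continuousAt]
  intro s
  have h0 : Tendsto (fun h : ℝ => sg h x) (𝓝 0) (𝓝 x) := by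
    rw [tendsto_iff_norm_sub_tendsto_zero]
    have hlim : Tendsto (fun h : ℝ => 3 * |h| * ‖x‖) (𝓝 0) (𝓝 0) := by
      have : Continuous (fun h : ℝ => 3 * |h| * ‖x‖) := by fun_prop
      simpa using this.tendsto 0
    have hev : ∀ᶠ h : ℝ in 𝓝 0, |h| ≤ 1 := by
      have : Set.Icc (-1 : ℝ) 1 ∈ 𝓝 (0 : ℝ) := Icc_mem_nhds (by norm_num) (by norm_num)
      filter_upwards [this] with h hh
      exact abs_le.2 hh
    refine squeeze_zero' (Eventually.of_forall fun _ => norm_nonneg _) ?_ hlim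
    filter_upwards [hev] with h hh
    exact sg_sub_norm_le hh x
  have h1 : Tendsto (fun t : ℝ => t - s) (𝓝 s) (𝓝 0) := by
    have : Continuous (fun t : ℝ => t - s) := by fun_prop
    simpa using this.tendsto s
  have h2 : Tendsto (fun t : ℝ => sg s (sg (t - s) x)) (𝓝 s) (𝓝 (sg s x)) :=
    ((sg s).continuous.tendsto x).comp (h0.comp h1)
  refine h2.congr (fun t => ?_)
  rw [← ContinuousLinearMap.comp_apply, ← sg_add]
  congr 2
  ring

/-! ### Null orbits -/

/-- finitely supported vectors -/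
def X0 : Submodule ℂ Sp where
  carrier := {x | ∃ N : ℕ, ∀ n, N ≤ n → x n = 0}
  zero_mem' := ⟨0, fun n _ => rfl⟩
  add_mem' := by
    rintro x y ⟨N, hN⟩ ⟨M, hM⟩
    refine ⟨max N M, fun n hn => ?_⟩
    rw [lp.coeFn_add, Pi.add_apply, hN n (le_trans (le_max_left _ _) hn),
      hM n (le_trans (le_max_right _ _) hn), add_zero]
  smul_mem' := by
    rintro c x ⟨N, hN⟩
    refine ⟨N, fun n hn => ?_⟩
    rw [lp.coeFn_smul, Pi.smul_apply, hN n hn, smul_zero]

lemma single_mem_X0 (i : ℕ) (v : ℂ × ℂ) : (lp.single 1 i v : Sp) ∈ X0 := by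
  refine ⟨i + 1, fun n hn => ?_⟩
  have hne : n ≠ i := by omega
  exact lp.single_apply_ne (E := fun _ : ℕ => ℂ × ℂ) 1 i v hne

lemma dense_X0 : Dense (X0 : Set Sp) := by
  intro x
  have h := lp.hasSum_single (E := fun _ : ℕ => ℂ × ℂ) (p := 1) (by simp) x
  refine mem_closure_of_tendsto h (Eventually.of_forall fun s => ?_)
  exact X0.sum_mem fun i _ => single_mem_X0 i _

lemma blk_tendsto (n : ℕ) (v : ℂ × ℂ) : Tendsto (fun t : ℝ => ‖blk n t v‖) atTop (𝓝 0) := by
  have hz := z_pos n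
  have hep := ep_pos n
  have h1 : Tendsto (fun t : ℝ => Real.exp (-t / z n) * ((1 + 2 / ep n) * ‖v‖)) atTop (𝓝 0) := by
    have h2 : Tendsto (fun t : ℝ => Real.exp (-t / z n)) atTop (𝓝 0) := by
      apply Real.tendsto_exp_atBot.comp
      have : (fun t : ℝ => -t / z n) = fun t => -(t / z n) := by ext t; ring
      rw [this]
      exact tendsto_neg_atTop_atBot.comp (tendsto_id.atTop_div_const hz)
    simpa using h2.mul_const ((1 + 2 / ep n) * ‖v‖)
  refine squeeze_zero (fun _ => norm_nonneg _) (fun t => ?_) h1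
  refine (blk_norm_apply_le n t v).trans ?_
  rw [mul_assoc]
  have := norm_rot_sub_one_le_two n t
  gcongr

lemma sg_tendsto_X0 {x : Sp} (hx : x ∈ X0) : Tendsto (fun t : ℝ => sg t x) atTop (𝓝 0) := by
  obtain ⟨N, hN⟩ := hx
  rw [tendsto_zero_iff_norm_tendsto_zero]
  have h1 : ∀ t : ℝ, ‖sg t x‖ = ∑ n ∈ Finset.range N, ‖blk n t (x n)‖ := by
    intro t
    rw [norm_eq]
    refine tsum_eq_sum (fun n hn => ?_)
    have hn' : N ≤ n := by simpa using hn
    rw [sg_apply, hN n hn', map_zero, norm_zero]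
  simp_rw [h1]
  have : (0 : ℝ) = ∑ n ∈ Finset.range N, (0 : ℝ) := by simp
  rw [this]
  exact tendsto_finsetSum _ fun n _ => blk_tendsto n (x n)

/-- Orbits go to zero along the set of good times. -/
lemma sg_small_on_Z (x : Sp) {σ : ℝ} (hσ : 0 < σ) :
    ∃ t₀ : ℝ, ∀ (j : ℕ) (t : ℝ), t₀ ≤ z j → z j ≤ t → t ≤ z j + 1 → ‖sg t x‖ < σ := by
  obtain ⟨x', hx', hxx⟩ := Metric.mem_closure_iff.1 (dense_X0 x) (σ / 4) (by positivity)
  have ht := sg_tendsto_X0 hx'
  rw [Metric.tendsto_atTop] at ht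
  obtain ⟨t₀, ht₀⟩ := ht (σ / 4) (by positivity)
  refine ⟨t₀, fun j t hj h1 h2 => ?_⟩
  have h3 := ht₀ t (hj.trans h1)
  rw [dist_zero_right] at h3
  have h4 := norm_sg_Z j h1 h2 (x - x')
  rw [dist_eq_norm] at hxx
  have h5 : sg t x = sg t (x - x') + sg t x' := by rw [map_sub]; abel
  calc ‖sg t x‖ ≤ ‖sg t (x - x')‖ + ‖sg t x'‖ := by rw [h5]; exact norm_add_le _ _
    _ < σ := by linarith


/-! ### The irregular vector -/

/-- coefficients -/
noncomputable def co (n : ℕ) : ℝ := (1 / 2) ^ n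

lemma co_pos (n : ℕ) : 0 < co n := by unfold co; positivity

lemma summable_co : Summable co := summable_geometric_two

/-- the vector -/
noncomputable def yv : Sp := ⟨fun n => ((0 : ℂ), (co n : ℂ)), by
  apply memℓp_gen
  refine summable_co.congr (fun n => ?_)
  simp only [ENNReal.toReal_one, Real.rpow_one, Prod.norm_def, norm_zero, Complex.norm_real]
  rw [Real.norm_of_nonneg (co_pos n).le, max_eq_right (co_pos n).le]⟩

@[simp] lemma yv_apply (n : ℕ) : yv n = ((0 : ℂ), (co n : ℂ)) := rfl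

lemma norm_yv_apply (n : ℕ) : ‖yv n‖ = co n := by
  rw [yv_apply, Prod.norm_def, norm_zero, Complex.norm_real, Real.norm_of_nonneg (co_pos n).le,
    max_eq_right (co_pos n).le]

lemma yv_ne_zero : yv ≠ 0 := by
  intro h
  have h1 := norm_yv_apply 0
  rw [h] at h1
  have h2 := co_pos 0
  simp at h1
  linarith

/-- lower bound for the orbit on the bulk of `[0, z n]` -/
lemma yv_large (n : ℕ) {t : ℝ} (h1 : co n * z n ≤ t) (h2 : t ≤ (1 - co n) * z n) :
    2 ^ n ≤ ‖sg t yv‖ := by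
  have hz := z_pos n
  have hep := ep_pos n
  have hco := co_pos n
  have hpi := Real.pi_pos
  have ht0 : 0 ≤ t := (mul_nonneg hco.le hz.le).trans h1
  have htz : t ≤ z n := by nlinarith
  -- the rotation is far from 1
  have hu1 : co n ≤ t / z n := by rw [le_div_iff₀ hz]; exact h1
  have hu2 : t / z n ≤ 1 - co n := by rw [div_le_iff₀ hz]; exact h2
  have hrot : 4 * co n ≤ ‖rot n t - 1‖ := by
    unfold rot
    rw [Complex.norm_exp_I_mul_ofReal_sub_one]
    have e1 : 2 * Real.pi * t / z n / 2 = Real.pi * (t / z n) := by field_simp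
    rw [e1]
    set u := t / z n with hu
    have hsin : 2 * co n ≤ Real.sin (Real.pi * u) := by
      rcases le_or_gt u (1 / 2) with hle | hgt
      · have h3 := Real.mul_le_sin (x := Real.pi * u) (by nlinarith) (by nlinarith)
        have h4 : 2 / Real.pi * (Real.pi * u) = 2 * u := by field_simp
        linarith
      · have h3 := Real.mul_le_sin (x := Real.pi * (1 - u)) (by nlinarith) (by nlinarith)
        have h4 : 2 / Real.pi * (Real.pi * (1 - u)) = 2 * (1 - u) := by field_simp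
        have h5 : Real.sin (Real.pi * (1 - u)) = Real.sin (Real.pi * u) := by
          rw [mul_sub, mul_one, Real.sin_pi_sub]
        rw [h4, h5] at h3
        linarith
    rw [Real.norm_of_nonneg (by linarith)]
    linarith
  have hexp : (1 : ℝ) / 3 ≤ Real.exp (-t / z n) := by
    have h3 : -1 ≤ -t / z n := by rw [le_div_iff₀ hz]; linarith
    have h4 := Real.exp_le_exp.2 h3
    have h5 := Real.exp_one_lt_d9
    have h6 : Real.exp (-1) = (Real.exp 1)⁻¹ := Real.exp_neg 1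
    have h7 : (1 : ℝ) / 3 ≤ (Real.exp 1)⁻¹ := by
      rw [one_div]
      apply inv_anti₀ (Real.exp_pos 1)
      linarith
    linarith [h6 ▸ h4]
  have hcoord : ‖sg t yv n‖ ≤ ‖sg t yv‖ := lp.norm_apply_le_norm (by simp) _ n
  refine le_trans ?_ hcoord
  rw [sg_apply, blk_apply, yv_apply]
  refine le_trans ?_ (norm_fst_le _)
  simp only [mul_zero, zero_add]
  rw [norm_mul, norm_div, norm_mul, norm_mu, Complex.norm_real, Complex.norm_real,
    Real.norm_of_nonneg hep.le, Real.norm_of_nonneg hco.le]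
  have hval : (1 : ℝ) / 3 * (4 * co n) / ep n * co n = 4 / 3 * 2 ^ n := by
    unfold co ep
    have h8 : (8 : ℝ) ^ n = 2 ^ n * 2 ^ n * 2 ^ n := by
      rw [← mul_pow, ← mul_pow]; norm_num
    rw [one_div, one_div, one_div, inv_pow, inv_pow, h8]
    have h2n : (2 : ℝ) ^ n ≠ 0 := by positivity
    field_simp
  calc (2 : ℝ) ^ n ≤ 4 / 3 * 2 ^ n := by
        have : (0 : ℝ) < 2 ^ n := by positivity
        linarith
    _ = (1 : ℝ) / 3 * (4 * co n) / ep n * co n := hval.symm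
    _ ≤ Real.exp (-t / z n) * ‖rot n t - 1‖ / ep n * co n := by gcongr

/-- The quantity bounding the orbit between `2 (m+1) z m` and `2 (m+1)^2 z m`. -/
lemma yv_small (m : ℕ) {t : ℝ} (h1 : 2 * (m + 1) * z m ≤ t) (h2 : t ≤ 2 * (m + 1) ^ 2 * z m) :
    ‖sg t yv‖ ≤ 3 * (m + 1) * 4 ^ m * Real.exp (-2 * (m + 1)) + 2 * (1 / 2) ^ m := by
  have ht0 : 0 ≤ t := le_trans (mul_nonneg (by positivity) (z_pos m).le) h1
  -- split the sum
  have hs := summable_norm (sg t yv)
  rw [norm_eq, ← hs.sum_add_tsum_nat_add (m + 1)]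
  refine add_le_add ?_ ?_
  · have hb : ∀ k ∈ Finset.range (m + 1), ‖sg t yv k‖ ≤ 3 * 4 ^ m * Real.exp (-2 * (m + 1)) := by
      intro k hk
      have hkm : k ≤ m := by simpa [Nat.lt_succ_iff] using hk
      have hep := ep_pos k
      have hz := z_pos k
      have h3 := blk_norm_apply_le k t (yv k)
      rw [norm_yv_apply] at h3
      refine (sg_apply t yv k) ▸ h3.trans ?_
      have h4 := norm_rot_sub_one_le_two k t
      have h5 : Real.exp (-t / z k) ≤ Real.exp (-2 * (m + 1)) := by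
        apply Real.exp_le_exp.2
        rw [div_le_iff₀ hz]
        have h6 := z_mono hkm
        have : 2 * (m + 1) * z k ≤ 2 * (m + 1) * z m := by gcongr
        linarith
      have h7 : (1 + ‖rot k t - 1‖ / ep k) * co k ≤ 3 * 4 ^ m := by
        have h8 : (1 + ‖rot k t - 1‖ / ep k) ≤ 3 * 8 ^ k := by
          have h9 : ‖rot k t - 1‖ / ep k ≤ 2 * 8 ^ k := by
            unfold ep
            rw [one_div, inv_pow, div_inv_eq_mul]
            gcongr
          have h10 : (1 : ℝ) ≤ 8 ^ k := one_le_pow₀ (by norm_num)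
          linarith
        have h11 : (1 + ‖rot k t - 1‖ / ep k) * co k ≤ 3 * 8 ^ k * co k :=
          mul_le_mul_of_nonneg_right h8 (co_pos k).le
        have h12 : 3 * (8 : ℝ) ^ k * co k = 3 * 4 ^ k := by
          unfold co
          rw [mul_assoc, ← mul_pow]
          norm_num
        have h13 : (4 : ℝ) ^ k ≤ 4 ^ m := pow_le_pow_right₀ (by norm_num) hkm
        linarith
      have h14 : 0 ≤ (1 + ‖rot k t - 1‖ / ep k) * co k := by
        have := co_pos k
        positivity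
      calc Real.exp (-t / z k) * (1 + ‖rot k t - 1‖ / ep k) * co k
          = Real.exp (-t / z k) * ((1 + ‖rot k t - 1‖ / ep k) * co k) := by ring
        _ ≤ Real.exp (-2 * (m + 1)) * (3 * 4 ^ m) := by gcongr
        _ = _ := by ring
    calc ∑ k ∈ Finset.range (m + 1), ‖sg t yv k‖
        ≤ ∑ k ∈ Finset.range (m + 1), 3 * 4 ^ m * Real.exp (-2 * (m + 1)) := Finset.sum_le_sum hb
      _ = 3 * (m + 1) * 4 ^ m * Real.exp (-2 * (m + 1)) := by
          rw [Finset.sum_const, Finset.card_range, nsmul_eq_mul]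
          push_cast
          ring
  · have hb : ∀ k : ℕ, ‖sg t yv (k + (m + 1))‖ ≤ (1 / 2) ^ m * (1 / 2) ^ k := by
      intro k
      set n := k + (m + 1) with hn
      have hmn : m < n := by omega
      have h3 := blk_norm_le_of_nonneg n ht0 (yv n)
      rw [norm_yv_apply] at h3
      refine (sg_apply t yv n) ▸ h3.trans ?_
      have hep := ep_pos n
      have hz := z_pos n
      have hzm := z_pos m
      have h4 : ‖rot n t - 1‖ / ep n ≤ 1 := by
        rw [div_le_iff₀ hep, one_mul]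
        refine (norm_rot_sub_one_le n t).trans ?_
        rw [div_le_iff₀ hz, abs_of_nonneg ht0]
        have h5 := zep_ge hmn
        have h6 : ((m : ℝ) + 1) ^ 2 ≤ 2 ^ (17 * m) := by
          have h7 : (m : ℝ) + 1 ≤ 2 ^ m := by exact_mod_cast Nat.lt_two_pow_self
          calc ((m : ℝ) + 1) ^ 2 ≤ (2 ^ m) ^ 2 := by gcongr
            _ = 2 ^ (2 * m) := by rw [← pow_mul]; ring_nf
            _ ≤ 2 ^ (17 * m) := pow_le_pow_right₀ (by norm_num) (by omega)
        have h8 : (2 : ℝ) ^ (17 * m + 27) = 2 ^ (17 * m) * 2 ^ 27 := pow_add _ _ _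
        have hpi := Real.pi_le_four
        have hpi0 := Real.pi_pos
        calc 2 * Real.pi * t ≤ 2 * Real.pi * (2 * (m + 1) ^ 2 * z m) := by gcongr
          _ ≤ 2 * 4 * (2 * 2 ^ (17 * m) * z m) := by gcongr
          _ ≤ z m * 2 ^ (17 * m + 27) := by
              rw [h8]
              have : (0 : ℝ) < 2 ^ (17 * m) * z m := by positivity
              nlinarith
          _ ≤ z n * ep n := h5
          _ = ep n * z n := mul_comm _ _
      have hcn : co n = (1 / 2) ^ m * (1 / 2) ^ k * (1 / 2) := by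
        unfold co
        rw [hn]
        rw [pow_add, pow_add]
        ring
      have hco := co_pos n
      calc (1 + ‖rot n t - 1‖ / ep n) * co n ≤ (1 + 1) * co n := by gcongr
        _ = _ := by rw [hcn]; ring
    have hsum : Summable (fun k : ℕ => ((1 : ℝ) / 2) ^ m * (1 / 2) ^ k) :=
      summable_geometric_two.mul_left _
    have hs' : Summable (fun k : ℕ => ‖sg t yv (k + (m + 1))‖) :=
      Summable.of_nonneg_of_le (fun _ => norm_nonneg _) hb hsum
    calc ∑' k : ℕ, ‖sg t yv (k + (m + 1))‖ ≤ ∑' k : ℕ, ((1 : ℝ) / 2) ^ m * (1 / 2) ^ k :=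
          Summable.tsum_le_tsum hb hs' hsum
      _ = 2 * (1 / 2) ^ m := by rw [tsum_mul_left, tsum_geometric_two]; ring


/-! ### densities -/

lemma lowerFDensity_eq_zero (A : Set ℝ) (N b : ℕ → ℝ) (hN2 : ∀ n, 2 ≤ N n)
    (hN : Tendsto N atTop atTop) (hb : Tendsto b atTop (𝓝 0))
    (h : ∀ᶠ n in atTop, volume (A ∩ Set.Icc 0 (N n)) ≤ ENNReal.ofReal (b n * N n)) :
    lowerFDensity (fun t => 1 + t) A = 0 := by
  unfold lowerFDensity
  have hτ : Tendsto (fun n => N n - 1) atTop atTop := tendsto_atTop_add_const_right _ _ hN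
  have h1 : liminf (fun t : ℝ => volume (A ∩ Set.Icc 0 (1 + t)) / ENNReal.ofReal t) atTop ≤
      liminf (fun n : ℕ => volume (A ∩ Set.Icc 0 (1 + (N n - 1))) / ENNReal.ofReal (N n - 1))
        atTop := by
    have := Filter.liminf_le_liminf_of_le
      (u := fun t : ℝ => volume (A ∩ Set.Icc 0 (1 + t)) / ENNReal.ofReal t) hτ
    exact this
  have h2 : Tendsto (fun n : ℕ => ENNReal.ofReal (2 * |b n|)) atTop (𝓝 0) := by
    have h3 : Tendsto (fun n : ℕ => 2 * |b n|) atTop (𝓝 0) := by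
      have := (hb.abs.const_mul 2)
      simpa using this
    have h4 := (ENNReal.continuous_ofReal.tendsto 0).comp h3
    rw [ENNReal.ofReal_zero] at h4
    exact h4
  have h3 : liminf (fun n : ℕ => volume (A ∩ Set.Icc 0 (1 + (N n - 1))) / ENNReal.ofReal (N n - 1))
      atTop ≤ liminf (fun n : ℕ => ENNReal.ofReal (2 * |b n|)) atTop := by
    refine Filter.liminf_le_liminf ?_
    filter_upwards [h] with n hn
    have hNn := hN2 n
    have e : 1 + (N n - 1) = N n := by ring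
    rw [e]
    refine ENNReal.div_le_of_le_mul ?_
    refine hn.trans ?_
    rw [← ENNReal.ofReal_mul (by positivity)]
    apply ENNReal.ofReal_le_ofReal
    have hb0 := le_abs_self (b n)
    have hb1 := abs_nonneg (b n)
    nlinarith
  rw [h2.liminf_eq] at h3
  exact le_antisymm (h1.trans h3) bot_le

lemma z_ge_nat (n : ℕ) : (n : ℝ) ≤ z n := by
  have h1 : n ≤ 2 ^ (10 * (n + 1) ^ 2) := by
    have h2 : n < 2 ^ n := Nat.lt_two_pow_self
    have h3 : 2 ^ n ≤ 2 ^ (10 * (n + 1) ^ 2) := Nat.pow_le_pow_right (by norm_num) (by nlinarith)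
    omega
  unfold z
  exact_mod_cast h1

lemma tendsto_z : Tendsto z atTop atTop :=
  tendsto_atTop_mono z_ge_nat tendsto_natCast_atTop_atTop

lemma tendsto_co : Tendsto co atTop (𝓝 0) :=
  tendsto_pow_atTop_nhds_zero_of_lt_one (by norm_num) (by norm_num)

lemma density_small {c σ : ℝ} (hc : 0 < c) :
    lowerFDensity (fun t => 1 + t) {t : ℝ | 0 ≤ t ∧ c * ‖sg t yv‖ < σ} = 0 := by
  refine lowerFDensity_eq_zero _ z (fun n => 2 * co n) (fun n => by linarith [z_ge n]) tendsto_z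
    (by simpa using tendsto_co.const_mul 2) ?_
  have h2 : ∀ᶠ n : ℕ in atTop, σ / c ≤ 2 ^ n :=
    (tendsto_pow_atTop_atTop_of_one_lt (by norm_num : (1 : ℝ) < 2)).eventually_ge_atTop _
  filter_upwards [h2] with n hn
  have hz := z_pos n
  have hco := co_pos n
  have hsub : {t : ℝ | 0 ≤ t ∧ c * ‖sg t yv‖ < σ} ∩ Set.Icc 0 (z n) ⊆
      Set.Icc 0 (co n * z n) ∪ Set.Icc ((1 - co n) * z n) (z n) := by
    rintro t ⟨⟨ht0, ht⟩, ht1, ht2⟩
    by_contra hcon
    simp only [Set.mem_union, Set.mem_Icc, not_or, not_and, not_le] at hcon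
    have h3 : co n * z n < t := hcon.1 ht0
    have h4 : t < (1 - co n) * z n := by
      by_contra h5
      exact absurd ht2 (not_le.2 (hcon.2 (not_lt.1 h5)))
    have h5 := yv_large n h3.le h4.le
    rw [div_le_iff₀ hc] at hn
    nlinarith
  refine (measure_mono hsub).trans ((measure_union_le _ _).trans ?_)
  rw [Real.volume_Icc, Real.volume_Icc, ← ENNReal.ofReal_add]
  · apply ENNReal.ofReal_le_ofReal
    linarith
  · have := mul_pos hco hz
    linarith
  · have := mul_pos hco hz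
    linarith

lemma bound_tendsto :
    Tendsto (fun m : ℕ => 3 * ((m : ℝ) + 1) * 4 ^ m * Real.exp (-2 * (m + 1)) + 2 * (1 / 2) ^ m)
      atTop (𝓝 0) := by
  have h1 : Tendsto (fun m : ℕ => ((m : ℝ) + 1) * (4 * Real.exp (-2)) ^ m) atTop (𝓝 0) := by
    have hr0 : 0 ≤ 4 * Real.exp (-2) := by positivity
    have hr1 : 4 * Real.exp (-2) < 1 := by
      have h3 : Real.exp (-2) = (Real.exp 1 * Real.exp 1)⁻¹ := by
        rw [← Real.exp_add, ← Real.exp_neg]; norm_num
      have h4 := Real.exp_one_gt_d9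
      have h5 : 4 < Real.exp 1 * Real.exp 1 := by nlinarith
      rw [h3, ← div_eq_mul_inv, div_lt_one (by positivity)]
      exact h5
    have h2 := tendsto_self_mul_const_pow_of_lt_one hr0 hr1
    have h3 := tendsto_pow_atTop_nhds_zero_of_lt_one hr0 hr1
    have h4 := h2.add h3
    rw [add_zero] at h4
    refine h4.congr (fun m => by ring)
  have h2 : Tendsto (fun m : ℕ => 2 * ((1 : ℝ) / 2) ^ m) atTop (𝓝 0) := by
    have := (tendsto_pow_atTop_nhds_zero_of_lt_one (r := (1 : ℝ) / 2) (by norm_num)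
      (by norm_num)).const_mul 2
    simpa using this
  have h3 := (h1.const_mul (3 * Real.exp (-2))).add h2
  rw [mul_zero, add_zero] at h3
  refine h3.congr (fun m => ?_)
  have e : Real.exp (-2 * ((m : ℝ) + 1)) = Real.exp (-2) ^ m * Real.exp (-2) := by
    rw [← Real.exp_nat_mul, ← Real.exp_add]
    congr 1
    ring
  rw [e, mul_pow]
  ring

lemma density_large {c ε : ℝ} (hc : 0 < c) (hε : 0 < ε) :
    lowerFDensity (fun t => 1 + t) {t : ℝ | 0 ≤ t ∧ ε ≤ c * ‖sg t yv‖} = 0 := by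
  refine lowerFDensity_eq_zero _ (fun m => 2 * ((m : ℝ) + 1) ^ 2 * z m) (fun m => 1 / ((m : ℝ) + 1))
    (fun m => ?_) ?_ tendsto_one_div_add_atTop_nhds_zero_nat ?_
  · have h1 := z_ge m
    have h2 : (0 : ℝ) ≤ m := Nat.cast_nonneg m
    have h3 : (1 : ℝ) ≤ ((m : ℝ) + 1) ^ 2 := by nlinarith
    nlinarith
  · refine tendsto_atTop_mono (fun m => ?_) tendsto_z
    have h1 := z_pos m
    have h2 : (0 : ℝ) ≤ m := Nat.cast_nonneg m
    have h3 : (1 : ℝ) ≤ ((m : ℝ) + 1) ^ 2 := by nlinarith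
    nlinarith
  · have hlt : ∀ᶠ m : ℕ in atTop,
        3 * ((m : ℝ) + 1) * 4 ^ m * Real.exp (-2 * (m + 1)) + 2 * (1 / 2) ^ m < ε / c :=
      bound_tendsto.eventually_lt_const (by positivity)
    filter_upwards [hlt] with m hm
    have hz := z_pos m
    have hm0 : (0 : ℝ) < (m : ℝ) + 1 := by positivity
    have hsub : {t : ℝ | 0 ≤ t ∧ ε ≤ c * ‖sg t yv‖} ∩ Set.Icc 0 (2 * ((m : ℝ) + 1) ^ 2 * z m) ⊆
        Set.Icc 0 (2 * ((m : ℝ) + 1) * z m) := by
      rintro t ⟨⟨ht0, ht⟩, ht1, ht2⟩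
      refine ⟨ht0, ?_⟩
      by_contra hcon
      have h5 := yv_small m (not_le.1 hcon).le ht2
      have h6 := h5.trans_lt hm
      rw [lt_div_iff₀ hc] at h6
      linarith
    refine (measure_mono hsub).trans ?_
    rw [Real.volume_Icc]
    apply ENNReal.ofReal_le_ofReal
    have e : 1 / ((m : ℝ) + 1) * (2 * ((m : ℝ) + 1) ^ 2 * z m) = 2 * ((m : ℝ) + 1) * z m := by
      field_simp
    rw [e, sub_zero]

/-! ### the function f -/

/-- the gauge for which chaos fails -/
noncomputable def gauge (t : ℝ) : ℝ := z ⌈t⌉₊ + 1 + t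

lemma gauge_strictMono : StrictMonoOn gauge (Set.Ici 0) := by
  intro s _ t _ hst
  have h1 : z ⌈s⌉₊ ≤ z ⌈t⌉₊ := z_mono (Nat.ceil_mono hst.le)
  unfold gauge
  linarith

lemma z_gap {i j : ℕ} (h : i < j) : z i + 1 < z j := by
  have h1 : z (i + 1) ≤ z j := z_mono h
  have h2 := z_succ i
  have h3 := z_ge i
  have h4 : (2 : ℝ) ^ 1 ≤ 2 ^ (20 * i + 30) := pow_le_pow_right₀ (by norm_num) (by omega)
  nlinarith

lemma measure_Z (j₀ K : ℕ) :
    volume (⋃ j ∈ Finset.Ico j₀ K, Set.Icc (z j) (z j + 1)) = ((K - j₀ : ℕ) : ℝ≥0∞) := by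
  rw [measure_biUnion_finset]
  · simp [Real.volume_Icc]
  · intro i _ j _ hij
    rw [Function.onFun, Set.disjoint_left]
    rintro t ⟨h1, h2⟩ ⟨h3, h4⟩
    rcases lt_or_gt_of_ne hij with h | h
    · have := z_gap h
      linarith
    · have := z_gap h
      linarith
  · intro j _
    exact measurableSet_Icc

lemma gauge_density (A : Set ℝ) (t₀ : ℝ)
    (hA : ∀ (j : ℕ) (t : ℝ), t₀ ≤ z j → z j ≤ t → t ≤ z j + 1 → t ∈ A) :
    lowerFDensity gauge A ≠ 0 := by
  obtain ⟨j₀, hj₀⟩ : ∃ j₀ : ℕ, ∀ j, j₀ ≤ j → t₀ ≤ z j := by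
    obtain ⟨j₀, h⟩ := (tendsto_z.eventually_ge_atTop t₀).exists_forall_of_atTop
    exact ⟨j₀, h⟩
  have hle : (1 / 2 : ℝ≥0∞) ≤ lowerFDensity gauge A := by
    unfold lowerFDensity
    refine Filter.le_liminf_of_le (by isBoundedDefault) ?_
    filter_upwards [eventually_ge_atTop (2 * (j₀ : ℝ) + 1)] with t ht
    have hj0 : (0 : ℝ) ≤ j₀ := Nat.cast_nonneg _
    have ht0 : 0 < t := by linarith
    have hsub : (⋃ j ∈ Finset.Ico j₀ (⌈t⌉₊ + 1), Set.Icc (z j) (z j + 1)) ⊆
        A ∩ Set.Icc 0 (gauge t) := by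
      intro s hs
      simp only [Set.mem_iUnion, Finset.mem_Ico, exists_prop] at hs
      obtain ⟨j, ⟨hj1, hj2⟩, hs1, hs2⟩ := hs
      refine ⟨hA j s (hj₀ j hj1) hs1 hs2, (z_pos j).le.trans hs1, ?_⟩
      have : z j ≤ z ⌈t⌉₊ := z_mono (by omega)
      unfold gauge
      linarith
    have h1 := measure_mono (μ := volume) hsub
    rw [measure_Z] at h1
    have h2 : t ≤ ⌈t⌉₊ := Nat.le_ceil t
    have h3 : ENNReal.ofReal (t / 2) ≤ ((⌈t⌉₊ + 1 - j₀ : ℕ) : ℝ≥0∞) := by
      rw [← ENNReal.ofReal_natCast]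
      apply ENNReal.ofReal_le_ofReal
      have h4 : j₀ ≤ ⌈t⌉₊ + 1 := by
        have : (j₀ : ℝ) ≤ ⌈t⌉₊ := by linarith
        have : j₀ ≤ ⌈t⌉₊ := by exact_mod_cast this
        omega
      rw [Nat.cast_sub h4]
      push_cast
      linarith
    rw [ENNReal.le_div_iff_mul_le (Or.inl (by simpa using ht0)) (Or.inl ENNReal.ofReal_ne_top)]
    refine le_trans (le_of_eq ?_) (h3.trans h1)
    rw [div_eq_mul_inv t 2, mul_comm t, ENNReal.ofReal_mul (by norm_num),
      ENNReal.ofReal_inv_of_pos (by norm_num)]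
    simp
  intro h0
  rw [h0] at hle
  simp at hle


lemma gauge_classF : ClassF gauge where
  strictMono := gauge_strictMono
  one_le := by
    intro t ht
    have h1 := z_pos ⌈t⌉₊
    unfold gauge
    linarith
  liminf_pos := by
    have h : (1 : ℝ≥0∞) ≤ liminf (fun t : ℝ => ENNReal.ofReal (gauge t / t)) atTop := by
      refine Filter.le_liminf_of_le (by isBoundedDefault) ?_
      filter_upwards [eventually_gt_atTop (0 : ℝ)] with t ht
      rw [← ENNReal.ofReal_one]
      apply ENNReal.ofReal_le_ofReal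
      rw [le_div_iff₀ ht, one_mul]
      have h1 := z_pos ⌈t⌉₊
      unfold gauge
      linarith
    exact lt_of_lt_of_le one_pos h

lemma sg_isC0 : IsC0Semigroup sg where
  map_zero := sg_zero
  map_add := fun s t _ _ => sg_add s t
  continuousOn := fun x => (sg_continuous x).continuousOn

lemma dist_sg (t : ℝ) (x y : Sp) : dist (sg t x) (sg t y) = ‖sg t (x - y)‖ := by
  rw [dist_eq_norm, map_sub]

lemma sg_chaotic : FDistChaotic (fun t => 1 + t) sg := by
  refine ⟨Set.range (fun a : ℝ => (a : ℂ) • yv), ?_, 1, one_pos, ?_⟩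
  · intro hS
    have hinj : Function.Injective (fun a : ℝ => (a : ℂ) • yv) := by
      intro a b hab
      have h1 : ((a : ℂ) - b) • yv = 0 := by
        rw [sub_smul]
        exact sub_eq_zero.2 hab
      rcases smul_eq_zero.1 h1 with h2 | h2
      · exact_mod_cast sub_eq_zero.1 h2
      · exact absurd h2 yv_ne_zero
    have h1 := hS.preimage hinj
    rw [Set.preimage_range] at h1
    exact Cardinal.not_countable_real h1
  · rintro ε hε _ ⟨a, rfl⟩ _ ⟨b, rfl⟩ hab
    have hab' : a ≠ b := fun h => hab (by rw [h])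
    have hc : 0 < |a - b| := abs_pos.2 (sub_ne_zero.2 hab')
    have e : ∀ t : ℝ, dist (sg t ((a : ℂ) • yv)) (sg t ((b : ℂ) • yv)) = |a - b| * ‖sg t yv‖ := by
      intro t
      rw [dist_sg, ← sub_smul, map_smul, norm_smul, ← Complex.ofReal_sub, Complex.norm_real,
        Real.norm_eq_abs]
    simp only [e]
    exact ⟨density_small hc, density_large hc hε⟩

lemma sg_not_gauge_chaotic : ¬ FDistChaotic gauge sg := by
  rintro ⟨S, hS, σ, hσ, h⟩
  obtain ⟨x, hx, y, hy, hxy⟩ : ∃ x ∈ S, ∃ y ∈ S, x ≠ y := by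
    by_contra hcon
    apply hS
    apply Set.Subsingleton.countable
    intro x hx y hy
    by_contra hne
    exact hcon ⟨x, hx, y, hy, hne⟩
  have h1 := (h 1 one_pos x hx y hy hxy).1
  obtain ⟨t₀, ht₀⟩ := sg_small_on_Z (x - y) hσ
  refine gauge_density _ t₀ (fun j t hj h2 h3 => ?_) h1
  exact ⟨(z_pos j).le.trans h2, by rw [dist_sg]; exact ht₀ j t hj h2 h3⟩

/-- **Negative answer to Q1.** There are a complex Banach space `X` and a strongly continuous
semigroup of bounded operators on `X` which is distributionally chaotic and has a dense linear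
subspace of vectors with orbits tending to `0`, and there is a function `f` in the class `F`
for which the semigroup is not `f`-distributionally chaotic. -/
theorem result :
    ∃ (X : Type) (_ : NormedAddCommGroup X) (_ : NormedSpace ℂ X) (_ : CompleteSpace X)
      (T : ℝ → X →L[ℂ] X),
      IsC0Semigroup T ∧
      FDistChaotic (fun t => 1 + t) T ∧
      (∃ X₀ : Submodule ℂ X, Dense (X₀ : Set X) ∧
        ∀ x ∈ X₀, Tendsto (fun t : ℝ => T t x) atTop (𝓝 0)) ∧
      ∃ f : ℝ → ℝ, ClassF f ∧ ¬ FDistChaotic f T :=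
  ⟨Sp, inferInstance, inferInstance, inferInstance, sg, sg_isC0, sg_chaotic,
    ⟨X0, dense_X0, fun _ hx => sg_tendsto_X0 hx⟩, gauge, gauge_classF, sg_not_gauge_chaotic⟩

end Pool.Agent.Results.MP_8cea72_an.NotFChaotic
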